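import Pool.Agent.E8helper21.QT.Phi2

/-! Spanning trees modulo two: the root does not matter, and an identity. -/

set_option autoImplicit false
set_option linter.unusedSectionVars false

namespace Pool.Agent.E8helper79.F1

open Finset
open Pool.Agent.E8helper21.QT (PS sum_PS PS_zero PS_one)

open Classical in
/-- the number of the spanning trees of `O` modulo two -/
noncomputable def TTc {κ : Type} (e : κ → κ → ZMod 2) (O : Finset κ) : ZMod 2 :=
  if O.Nonempty ∧ ∀ z : κ → ZMod 2, (∀ v ∈ O, ∑ u ∈ O, e u v * (z u + z v) = 0) →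
    ∀ u ∈ O, ∀ v ∈ O, z u = z v then 1 else 0

variable {κ : Type} [Fintype κ] [DecidableEq κ]

theorem row_sum (e : κ → κ → ZMod 2) (hs : ∀ u v, e u v = e v u) (O : Finset κ) (z : κ → ZMod 2) :
    ∑ v ∈ O, ∑ u ∈ O, e u v * (z u + z v) = 0 := by
  have h1 : ∑ v ∈ O, ∑ u ∈ O, e u v * (z u + z v) =
      ∑ v ∈ O, ∑ u ∈ O, e u v * z u + ∑ v ∈ O, ∑ u ∈ O, e u v * z v := by
    rw [← Finset.sum_add_distrib]
    refine Finset.sum_congr rfl fun v _ => ?_
    rw [← Finset.sum_add_distrib]
    exact Finset.sum_congr rfl fun u _ => by ring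
  have h2 : ∑ v ∈ O, ∑ u ∈ O, e u v * z v = ∑ v ∈ O, ∑ u ∈ O, e u v * z u := by
    rw [Finset.sum_comm]
    refine Finset.sum_congr rfl fun v _ => Finset.sum_congr rfl fun u _ => ?_
    rw [hs]
  rw [h1, h2]
  exact CharTwo.add_self_eq_zero _

theorem ttp (e : κ → κ → ZMod 2) (he : ∀ v, e v v = 0) (hs : ∀ u v, e u v = e v u)
    (O : Finset κ) (a : κ) (ha : a ∈ O) : TTc e O = PS e {a} O := by
  have hsub : ({a} : Finset κ) ⊆ O := Finset.singleton_subset_iff.2 ha
  unfold TTc
  split_ifs with h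
  · symm
    refine PS_one e he hsub fun z hz0 hz => ?_
    have hza : z a = 0 := hz0 a (Finset.mem_singleton_self a)
    have h1 : ∑ u ∈ O, e u a * (z u + z a) = 0 := by
      have h2 := row_sum e hs O z
      rw [← Finset.add_sum_erase O _ ha] at h2
      have h3 : ∑ v ∈ O.erase a, ∑ u ∈ O, e u v * (z u + z v) = 0 := by
        refine Finset.sum_eq_zero fun v hv => hz v ?_
        rw [Finset.mem_erase] at hv
        rw [Finset.mem_sdiff, Finset.mem_singleton]
        exact ⟨hv.2, hv.1⟩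
      rw [h3, add_zero] at h2
      exact h2
    intro v hv
    rw [← hza]
    refine h.2 z (fun v hv => ?_) v hv a ha
    by_cases hva : v = a
    · rw [hva]; exact h1
    · exact hz v (by rw [Finset.mem_sdiff, Finset.mem_singleton]; exact ⟨hv, hva⟩)
  · symm
    rw [not_and] at h
    have h1 := h ⟨a, ha⟩
    push Not at h1
    obtain ⟨z, hz, u, hu, v, hv, huv⟩ := h1
    have key : ∃ b ∈ O, z b + z a ≠ 0 := by
      by_contra hc
      push Not at hc
      have h2 := hc u hu
      have h3 := hc v hv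
      apply huv
      have h4 : z u + z v = 0 := by
        have h5 := CharTwo.add_self_eq_zero (z a)
        linear_combination h2 + h3 - h5
      exact CharTwo.add_eq_zero.1 h4
    obtain ⟨b, hb, hbz⟩ := key
    refine PS_zero e he hsub (z := fun v => z v + z a) (fun v hv => ?_) (fun v hv => ?_) hb hbz
    · rw [Finset.mem_singleton] at hv
      rw [hv]
      exact CharTwo.add_self_eq_zero _
    · rw [Finset.mem_sdiff] at hv
      rw [← hz v hv.1]
      refine Finset.sum_congr rfl fun u _ => ?_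
      have h5 := CharTwo.add_self_eq_zero (z a)
      linear_combination (e u v) * h5

theorem exch (W : Finset κ) (g : κ → ZMod 2) (F : Finset κ → ZMod 2) :
    ∑ O ∈ W.powerset, (∑ u ∈ O, g u) * F O =
      ∑ u ∈ W, g u * ∑ O ∈ W.powerset.filter (fun O => u ∈ O), F O := by
  have h1 : ∀ O ∈ W.powerset, (∑ u ∈ O, g u) * F O =
      ∑ u ∈ W, if u ∈ O then g u * F O else 0 := by
    intro O hO
    rw [Finset.mem_powerset] at hO
    rw [Finset.sum_mul, ← Finset.sum_filter, Finset.filter_mem_eq_inter,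
      Finset.inter_eq_right.2 hO]
  rw [Finset.sum_congr rfl h1, Finset.sum_comm]
  refine Finset.sum_congr rfl fun u _ => ?_
  rw [← Finset.sum_filter, Finset.mul_sum]

theorem partB (e : κ → κ → ZMod 2) (he : ∀ v, e v v = 0) (hs : ∀ u v, e u v = e v u)
    {V : Finset κ} (hV : 2 ≤ V.card) {c : κ} (hc : c ∈ V) :
    ∑ O ∈ V.powerset.filter (fun O => c ∈ O), TTc e O * ∏ j ∈ V \ O, ∑ u ∈ O, e u j = 0 := by
  have h1 := sum_PS e he (p := {c}) (V := V) (Finset.singleton_subset_iff.2 hc)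
    (by rw [Finset.card_singleton]; omega)
  rw [← h1]
  refine Finset.sum_congr ?_ fun O hO => ?_
  · refine Finset.filter_congr fun O _ => ?_
    rw [Finset.singleton_subset_iff]
  · rw [Finset.mem_filter] at hO
    rw [ttp e he hs O c (by
      have := hO.2
      rwa [Finset.singleton_subset_iff] at this)]

theorem partA (e : κ → κ → ZMod 2) (he : ∀ v, e v v = 0) (hs : ∀ u v, e u v = e v u)
    {V : Finset κ} (hV : 3 ≤ V.card) :
    ∑ O ∈ V.powerset, TTc e O * ∏ j ∈ V \ O, ∑ u ∈ O, e u j = 0 := by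
  obtain ⟨c, hc⟩ : V.Nonempty := Finset.card_pos.1 (by omega)
  rw [← Finset.sum_filter_add_sum_filter_not V.powerset (fun O => c ∈ O),
    partB e he hs (by omega) hc, zero_add]
  have h1 : V.powerset.filter (fun O => ¬ c ∈ O) = (V.erase c).powerset := by
    ext O
    rw [Finset.mem_filter, Finset.mem_powerset, Finset.mem_powerset]
    constructor
    · rintro ⟨h1, h2⟩ x hx
      exact Finset.mem_erase.2 ⟨fun h => h2 (h ▸ hx), h1 hx⟩
    · intro h
      exact ⟨h.trans (Finset.erase_subset _ _), fun h2 => (Finset.mem_erase.1 (h h2)).1 rfl⟩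
  rw [h1]
  have h2 : ∀ O ∈ (V.erase c).powerset, TTc e O * ∏ j ∈ V \ O, ∑ u ∈ O, e u j =
      (∑ u ∈ O, e u c) * (TTc e O * ∏ j ∈ (V.erase c) \ O, ∑ u ∈ O, e u j) := by
    intro O hO
    rw [Finset.mem_powerset] at hO
    have hcO : c ∉ O := fun h => (Finset.mem_erase.1 (hO h)).1 rfl
    have h3 : V \ O = insert c ((V.erase c) \ O) := by
      ext x
      rw [Finset.mem_sdiff, Finset.mem_insert, Finset.mem_sdiff, Finset.mem_erase]
      constructor
      · rintro ⟨h4, h5⟩
        by_cases hx : x = c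
        · exact Or.inl hx
        · exact Or.inr ⟨⟨hx, h4⟩, h5⟩
      · rintro (h4 | ⟨⟨_, h4⟩, h5⟩)
        · rw [h4]; exact ⟨hc, hcO⟩
        · exact ⟨h4, h5⟩
    rw [h3, Finset.prod_insert (by
      rw [Finset.mem_sdiff, Finset.mem_erase]
      exact fun h => h.1.1 rfl)]
    ring
  rw [Finset.sum_congr rfl h2, exch]
  refine Finset.sum_eq_zero fun u hu => ?_
  rw [partB e he hs (by rw [Finset.card_erase_of_mem hc]; omega) hu, mul_zero]

theorem tts (w : κ → ZMod 2) (e : κ → κ → ZMod 2) (he : ∀ v, e v v = 0)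
    (hs : ∀ u v, e u v = e v u) (V : Finset κ) (hV : 3 ≤ V.card) :
    ∑ O ∈ V.powerset.filter (fun O => ∑ j ∈ O, w j = 0),
      TTc e O * ∏ j ∈ V \ O, ∑ u ∈ O, e u j = 0 := by
  rw [Finset.sum_filter]
  have h1 : ∀ O ∈ V.powerset, (if ∑ j ∈ O, w j = 0 then
      TTc e O * ∏ j ∈ V \ O, ∑ u ∈ O, e u j else 0) =
      TTc e O * ∏ j ∈ V \ O, ∑ u ∈ O, e u j +
        (∑ j ∈ O, w j) * (TTc e O * ∏ j ∈ V \ O, ∑ u ∈ O, e u j) := by
    intro O _
    have h2 : ∀ s x : ZMod 2, (if s = 0 then x else 0) = x + s * x := by decide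
    exact h2 _ _
  rw [Finset.sum_congr rfl h1, Finset.sum_add_distrib, partA e he hs hV, zero_add, exch]
  refine Finset.sum_eq_zero fun u hu => ?_
  rw [partB e he hs (by omega) hu, mul_zero]

end Pool.Agent.E8helper79.F1
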