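import Pool.Agent.E8helper21.F1.Stm
import Pool.Agent.E8helper79.F1.TtA

/-! TTP and TTS: spanning trees modulo two. -/

set_option autoImplicit false

namespace Pool.Agent.E8helper79.F1

open Pool.Agent.E8helper21.F1

theorem t_TTP : S_TTP := fun κ _ _ e he hs O a ha => ttp e he hs O a ha

theorem t_TTS : S_TTS := fun κ _ _ w e he hs V hV => tts w e he hs V hV

end Pool.Agent.E8helper79.F1
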